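import Pool.Agent.N321.KT.Defs

/-!
Project KT (helper321), leaf KIL: `kK` is a Killing tensor.
-/

set_option autoImplicit false

open Filter Topology

namespace Pool.Agent.N558.KT

open Pool.Agent.N321.KT

variable {ι : Type} [Fintype ι] [DecidableEq ι]

/-- `f` is differentiable at `x` with partial derivative `a` in the direction `l` -/
def HP (l : ι) (f : (ι → ℝ) → ℝ) (x : ι → ℝ) (a : ℝ) : Prop :=
  DifferentiableAt ℝ f x ∧ pd l f x = a

section rules

variable {l : ι} {f g : (ι → ℝ) → ℝ} {x : ι → ℝ} {a a' : ℝ}

theorem hp_const (r : ℝ) : HP l (fun _ => r) x 0 := by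
  refine ⟨differentiableAt_const r, ?_⟩
  unfold pd
  simp

theorem hp_coord (i : ι) : HP l (fun y => y i) x (if i = l then 1 else 0) := by
  refine ⟨differentiableAt_apply i x, ?_⟩
  unfold pd
  have h : HasFDerivAt (fun y : ι → ℝ => y i) (ContinuousLinearMap.proj i : (ι → ℝ) →L[ℝ] ℝ) x :=
    (ContinuousLinearMap.proj i : (ι → ℝ) →L[ℝ] ℝ).hasFDerivAt
  rw [h.fderiv]
  simp [Pi.single_apply]

theorem HP.add (hf : HP l f x a) (hg : HP l g x a') : HP l (fun y => f y + g y) x (a + a') := by
  refine ⟨hf.1.add hg.1, ?_⟩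
  rw [← hf.2, ← hg.2]
  unfold pd
  rw [fderiv_fun_add hf.1 hg.1]
  rfl

theorem HP.sub (hf : HP l f x a) (hg : HP l g x a') : HP l (fun y => f y - g y) x (a - a') := by
  refine ⟨hf.1.sub hg.1, ?_⟩
  rw [← hf.2, ← hg.2]
  unfold pd
  rw [fderiv_fun_sub hf.1 hg.1]
  rfl

theorem HP.mul (hf : HP l f x a) (hg : HP l g x a') :
    HP l (fun y => f y * g y) x (a * g x + f x * a') := by
  refine ⟨hf.1.mul hg.1, ?_⟩
  rw [← hf.2, ← hg.2]
  unfold pd
  rw [fderiv_fun_mul hf.1 hg.1]
  simp only [add_apply, smul_apply, smul_eq_mul]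
  ring

theorem HP.cmul (r : ℝ) (hf : HP l f x a) : HP l (fun y => r * f y) x (r * a) := by
  have := (hp_const (l := l) (x := x) r).mul hf
  simpa using this

theorem HP.sum {κ : Type} (S : Finset κ) {F : κ → (ι → ℝ) → ℝ} {A : κ → ℝ}
    (h : ∀ i ∈ S, HP l (F i) x (A i)) : HP l (fun y => ∑ i ∈ S, F i y) x (∑ i ∈ S, A i) := by
  classical
  induction S using Finset.induction_on with
  | empty => simpa using hp_const (l := l) (x := x) 0
  | insert i S hi ih =>
    have h1 := (h i (Finset.mem_insert_self i S)).add
      (ih fun j hj => h j (Finset.mem_insert_of_mem hj))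
    simpa only [Finset.sum_insert hi] using h1

theorem hp_congr (h : f =ᶠ[𝓝 x] g) : pd l f x = pd l g x := by
  unfold pd
  rw [h.fderiv_eq]

end rules

/-- the bracket -/
noncomputable def Br (G F : (ι → ℝ) → ι → ι → ℝ) (x p : ι → ℝ) : ℝ :=
  ∑ l, ((∑ j, G x l j * p j) * (∑ s, ∑ t, pd l (fun y => F y s t) x * p s * p t) -
      (∑ t, F x l t * p t) * (∑ s, ∑ t, pd l (fun y => G y s t) x * p s * p t))

/-- quadratic integrals at a point -/
def Z (G : (ι → ℝ) → ι → ι → ℝ) (x : ι → ℝ) (F : (ι → ℝ) → ι → ι → ℝ) : Prop :=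
  (∀ s t, DifferentiableAt ℝ (fun y => F y s t) x) ∧ ∀ p, Br G F x p = 0

/-- linear integrals at a point -/
def KV (G : (ι → ℝ) → ι → ι → ℝ) (x : ι → ℝ) (u : (ι → ℝ) → ι → ℝ) : Prop :=
  (∀ s, DifferentiableAt ℝ (fun y => u y s) x) ∧ ∀ p : ι → ℝ,
    2 * ∑ l, (∑ j, G x l j * p j) * (∑ s, pd l (fun y => u y s) x * p s) =
      ∑ l, u x l * (∑ s, ∑ t, pd l (fun y => G y s t) x * p s * p t)

variable {G F F' : (ι → ℝ) → ι → ι → ℝ} {x : ι → ℝ} {u v : (ι → ℝ) → ι → ℝ}

theorem Z.zero : Z G x (fun _ _ _ => 0) := by
  refine ⟨fun _ _ => differentiableAt_const _, fun p => ?_⟩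
  unfold Br pd
  simp

theorem Z.add (h : Z G x F) (h' : Z G x F') : Z G x (fun y s t => F y s t + F' y s t) := by
  refine ⟨fun s t => (h.1 s t).add (h'.1 s t), fun p => ?_⟩
  have e1 : ∀ l s t, pd l (fun y => F y s t + F' y s t) x =
      pd l (fun y => F y s t) x + pd l (fun y => F' y s t) x := fun l s t =>
    (HP.add ⟨h.1 s t, rfl⟩ ⟨h'.1 s t, rfl⟩ : HP l _ x _).2
  have h1 := h.2 p
  have h2 := h'.2 p
  unfold Br at h1 h2 ⊢
  simp only [e1, add_mul, Finset.sum_add_distrib]
  have h3 := congrArg₂ (· + ·) h1 h2
  simp only [← Finset.sum_add_distrib, add_zero] at h3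
  simp only [← Finset.sum_add_distrib]
  rw [← h3]
  refine Finset.sum_congr rfl fun l _ => ?_
  simp only [Finset.sum_add_distrib]
  ring

theorem Z.cmul (r : ℝ) (h : Z G x F) : Z G x (fun y s t => r * F y s t) := by
  refine ⟨fun s t => (h.1 s t).const_mul r, fun p => ?_⟩
  have e1 : ∀ l s t, pd l (fun y => r * F y s t) x = r * pd l (fun y => F y s t) x :=
    fun l s t => (HP.cmul r ⟨h.1 s t, rfl⟩ : HP l _ x _).2
  have h1 := h.2 p
  unfold Br at h1 ⊢
  simp only [e1, mul_assoc, ← Finset.mul_sum]
  simp only [mul_assoc] at h1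
  rw [← mul_zero r, ← h1, Finset.mul_sum]
  exact Finset.sum_congr rfl fun l _ => by ring

theorem Z.sum {κ : Type} (S : Finset κ) {Φ : κ → (ι → ℝ) → ι → ι → ℝ}
    (h : ∀ i ∈ S, Z G x (Φ i)) : Z G x (fun y s t => ∑ i ∈ S, Φ i y s t) := by
  classical
  induction S using Finset.induction_on with
  | empty => simpa using Z.zero
  | insert i S hi ih =>
    have h1 := (h i (Finset.mem_insert_self i S)).add
      (ih fun j hj => h j (Finset.mem_insert_of_mem hj))
    simpa only [Finset.sum_insert hi] using h1

/-- contraction of a product -/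
theorem contr (a b p : ι → ℝ) :
    ∑ s, ∑ t, a s * b t * p s * p t = (∑ s, a s * p s) * (∑ t, b t * p t) := by
  rw [Finset.sum_mul_sum]
  exact Finset.sum_congr rfl fun s _ => Finset.sum_congr rfl fun t _ => by ring

theorem contr' (a b p : ι → ℝ) :
    ∑ s, ∑ t, a t * b s * p s * p t = (∑ s, a s * p s) * (∑ t, b t * p t) := by
  rw [Finset.sum_comm]
  rw [Finset.sum_mul_sum]
  exact Finset.sum_congr rfl fun s _ => Finset.sum_congr rfl fun t _ => by ring

/-- products of linear integrals are quadratic integrals -/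
theorem Z.prod (hu : KV G x u) (hv : KV G x v) :
    Z G x (fun y s t => u y s * v y t + u y t * v y s) := by
  refine ⟨fun s t => ((hu.1 s).mul (hv.1 t)).add ((hu.1 t).mul (hv.1 s)), fun p => ?_⟩
  have e1 : ∀ l s t, pd l (fun y => u y s * v y t + u y t * v y s) x =
      (pd l (fun y => u y s) x * v x t + u x s * pd l (fun y => v y t) x) +
      (pd l (fun y => u y t) x * v x s + u x t * pd l (fun y => v y s) x) := fun l s t =>
    ((HP.mul ⟨hu.1 s, rfl⟩ ⟨hv.1 t, rfl⟩).add (HP.mul ⟨hu.1 t, rfl⟩ ⟨hv.1 s, rfl⟩) :
      HP l _ x _).2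
  have h1 := hu.2 p
  have h2 := hv.2 p
  unfold Br
  have e2 : ∀ l, ∑ s, ∑ t, pd l (fun y => u y s * v y t + u y t * v y s) x * p s * p t =
      2 * ((∑ s, pd l (fun y => u y s) x * p s) * (∑ t, v x t * p t) +
        (∑ s, u x s * p s) * (∑ t, pd l (fun y => v y t) x * p t)) := by
    intro l
    have e3 : ∀ s t, pd l (fun y => u y s * v y t + u y t * v y s) x * p s * p t =
        pd l (fun y => u y s) x * v x t * p s * p t + u x s * pd l (fun y => v y t) x * p s * p t +
        (pd l (fun y => u y t) x * v x s * p s * p t + u x t * pd l (fun y => v y s) x * p s * p t) :=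
      fun s t => by rw [e1]; ring
    simp only [e3, Finset.sum_add_distrib]
    rw [contr (fun s => pd l (fun y => u y s) x) (v x) p,
      contr (u x) (fun t => pd l (fun y => v y t) x) p,
      contr' (fun s => pd l (fun y => u y s) x) (v x) p,
      contr' (u x) (fun t => pd l (fun y => v y t) x) p]
    ring
  have e4 : ∀ l, ∑ t, (u x l * v x t + u x t * v x l) * p t =
      u x l * (∑ t, v x t * p t) + v x l * (∑ t, u x t * p t) := by
    intro l
    rw [Finset.mul_sum, Finset.mul_sum, ← Finset.sum_add_distrib]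
    exact Finset.sum_congr rfl fun t _ => by ring
  simp only [e2, e4]
  set V := ∑ t, v x t * p t
  set U := ∑ s, u x s * p s
  have e5 : ∀ l, (∑ j, G x l j * p j) * (2 * ((∑ s, pd l (fun y => u y s) x * p s) * V +
        U * (∑ t, pd l (fun y => v y t) x * p t))) -
      (u x l * V + v x l * U) * (∑ s, ∑ t, pd l (fun y => G y s t) x * p s * p t) =
      V * (2 * ((∑ j, G x l j * p j) * (∑ s, pd l (fun y => u y s) x * p s)) -
        u x l * (∑ s, ∑ t, pd l (fun y => G y s t) x * p s * p t)) +
      U * (2 * ((∑ j, G x l j * p j) * (∑ s, pd l (fun y => v y s) x * p s)) -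
        v x l * (∑ s, ∑ t, pd l (fun y => G y s t) x * p s * p t)) := fun l => by ring
  rw [Finset.sum_congr rfl fun l _ => e5 l, Finset.sum_add_distrib, ← Finset.mul_sum,
    ← Finset.mul_sum, Finset.sum_sub_distrib, Finset.sum_sub_distrib, ← Finset.mul_sum,
    ← Finset.mul_sum, h1, h2, sub_self, sub_self, mul_zero, mul_zero, add_zero]

/-! ### The metric -/

section metric

variable (c : ℝ) (e : ι → ℝ) (x)

theorem hp_rho (l : ι) : HP l (rho c e) x (2 * c * e l * x l) := by
  have h : HP l (fun y : ι → ℝ => 1 + c * ∑ i, e i * (y i * y i)) x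
      (0 + c * ∑ i, e i * ((if i = l then 1 else 0) * x i + x i * (if i = l then 1 else 0))) :=
    (hp_const 1).add (HP.cmul c (HP.sum _ fun i _ => ((hp_coord i).mul (hp_coord i)).cmul (e i)))
  have e1 : rho c e = fun y : ι → ℝ => 1 + c * ∑ i, e i * (y i * y i) := by
    funext y
    unfold rho
    simp only [sq]
  rw [e1]
  refine ⟨h.1, h.2.trans ?_⟩
  have e2 : ∀ i, e i * ((if i = l then 1 else 0) * x i + x i * (if i = l then 1 else 0)) =
      if i = l then 2 * e i * x i else 0 := by
    intro i
    split_ifs <;> ring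
  simp only [e2, Finset.sum_ite_eq', Finset.mem_univ, if_true]
  ring

theorem hp_gInv (l s t : ι) : HP l (fun y => gInv c e y s t) x
    (2 * c * e l * x l * ((if s = t then e s else 0) + c * x s * x t) +
      rho c e x * (c * ((if s = l then 1 else 0) * x t + x s * (if t = l then 1 else 0)))) := by
  have h := (hp_rho x c e l).mul ((hp_const (l := l) (x := x) (if s = t then e s else 0)).add
    (HP.cmul c ((hp_coord s).mul (hp_coord t))))
  refine ⟨?_, ?_⟩
  · have h1 := h.1
    refine h1.congr_of_eventuallyEq (Eventually.of_forall fun y => ?_)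
    unfold gInv
    ring
  · have h1 := h.2
    have e1 : (fun y => gInv c e y s t) =
        fun y => rho c e y * ((if s = t then e s else 0) + c * (y s * y t)) := by
      funext y
      unfold gInv
      ring
    rw [e1, h1]
    ring

/-- the contraction of the inverse metric -/
theorem gInv_contr (l : ι) (p : ι → ℝ) : ∑ j, gInv c e x l j * p j =
    rho c e x * (e l * p l + c * x l * ∑ s, x s * p s) := by
  unfold gInv
  have e1 : ∀ j, rho c e x * ((if l = j then e l else 0) + c * x l * x j) * p j =
      rho c e x * ((if l = j then e l * p j else 0) + c * x l * (x j * p j)) := by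
    intro j
    split_ifs <;> ring
  simp only [e1]
  rw [← Finset.mul_sum, Finset.sum_add_distrib, ← Finset.mul_sum, Finset.sum_ite_eq]
  simp

/-- the derivative of the Hamiltonian -/
theorem dH (l : ι) (p : ι → ℝ) : ∑ s, ∑ t, pd l (fun y => gInv c e y s t) x * p s * p t =
    2 * c * e l * x l * ((∑ i, e i * p i ^ 2) + c * (∑ s, x s * p s) ^ 2) +
      2 * c * rho c e x * (∑ s, x s * p s) * p l := by
  set σ := ∑ s, x s * p s with hσ
  have e1 : ∀ s t, pd l (fun y => gInv c e y s t) x * p s * p t =
      2 * c * e l * x l * (if s = t then e s * p s * p t else 0) +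
      2 * c ^ 2 * e l * x l * ((x s * p s) * (x t * p t)) +
      rho c e x * c * (if s = l then p s * (x t * p t) else 0) +
      rho c e x * c * (if t = l then (x s * p s) * p t else 0) := by
    intro s t
    rw [(hp_gInv x c e l s t).2]
    split_ifs <;> ring
  have e2 : ∀ s, ∑ t, pd l (fun y => gInv c e y s t) x * p s * p t =
      2 * c * e l * x l * (e s * p s * p s) + 2 * c ^ 2 * e l * x l * ((x s * p s) * σ) +
      rho c e x * c * (if s = l then p s * σ else 0) +
      rho c e x * c * ((x s * p s) * p l) := by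
    intro s
    simp only [e1, Finset.sum_add_distrib, ← Finset.mul_sum]
    congr 1
    · congr 1
      · congr 1
        · simp
      · split_ifs with h
        · rw [← Finset.mul_sum]
        · simp
    · simp
  simp only [e2, Finset.sum_add_distrib, ← Finset.mul_sum, ← Finset.sum_mul]
  rw [Finset.sum_ite_eq' Finset.univ l (fun s => p s * σ)]
  have e3 : ∑ i, e i * p i * p i = ∑ i, e i * p i ^ 2 :=
    Finset.sum_congr rfl fun i _ => by ring
  rw [e3, ← hσ]
  simp only [Finset.mem_univ, if_true]
  ring

theorem rho_eq : rho c e x = 1 + c * ∑ i, e i * x i ^ 2 := rfl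

/-- the translations are Killing -/
theorem kv_P (he : ∀ i, e i ^ 2 = 1) (j : ι) :
    KV (gInv c e) x (fun y s => kP c e y j s) := by
  have hp : ∀ l s, HP l (fun y => kP c e y j s) x
      (c * e j * ((if j = l then 1 else 0) * x s + x j * (if s = l then 1 else 0))) := by
    intro l s
    have h := (hp_const (l := l) (x := x) (if j = s then 1 else 0)).add
      (HP.cmul (c * e j) ((hp_coord j).mul (hp_coord s)))
    have e1 : (fun y => kP c e y j s) =
        fun y : ι → ℝ => (if j = s then 1 else 0) + c * e j * (y j * y s) := by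
      funext y
      unfold kP
      ring
    rw [e1]
    refine ⟨h.1, h.2.trans ?_⟩
    ring
  refine ⟨fun s => (hp s s).1, fun p => ?_⟩
  set σ := ∑ s, x s * p s with hσ
  set T := ∑ i, e i * p i ^ 2 with hT
  have e1 : ∀ l, ∑ s, pd l (fun y => kP c e y j s) x * p s =
      c * e j * ((if j = l then σ else 0) + x j * p l) := by
    intro l
    have e2 : ∀ s, pd l (fun y => kP c e y j s) x * p s =
        c * e j * ((if j = l then 1 else 0) * (x s * p s) + x j * (if s = l then p s else 0)) := by
      intro s
      rw [(hp l s).2]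
      split_ifs <;> ring
    simp only [e2]
    rw [← Finset.mul_sum, Finset.sum_add_distrib, ← Finset.mul_sum, ← Finset.mul_sum,
      Finset.sum_ite_eq', ← hσ]
    simp only [Finset.mem_univ, if_true]
    split_ifs <;> ring
  have e3 : ∀ l, (∑ i, gInv c e x l i * p i) * (∑ s, pd l (fun y => kP c e y j s) x * p s) =
      rho c e x * c * e j * ((if j = l then (e l * p l + c * x l * σ) * σ else 0) +
        x j * (e l * p l ^ 2) + x j * c * σ * (x l * p l)) := by
    intro l
    rw [e1, gInv_contr, ← hσ]
    split_ifs <;> ring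
  have e4 : ∀ l, kP c e x j l * (∑ s, ∑ t, pd l (fun y => gInv c e y s t) x * p s * p t) =
      (if j = l then 2 * c * e l * x l * (T + c * σ ^ 2) + 2 * c * rho c e x * σ * p l else 0) +
      2 * c ^ 2 * e j * x j * (T + c * σ ^ 2) * (e l * x l ^ 2) +
      2 * c ^ 2 * e j * x j * rho c e x * σ * (x l * p l) := by
    intro l
    rw [dH, ← hσ, ← hT]
    unfold kP
    split_ifs <;> ring
  simp only [e3, e4, Finset.sum_add_distrib, ← Finset.mul_sum]
  rw [Finset.sum_ite_eq, Finset.sum_ite_eq, ← hσ, ← hT]
  simp only [Finset.mem_univ, if_true]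
  have hr := rho_eq x c e
  set S := ∑ i, e i * x i ^ 2
  rw [hr]
  linear_combination (2 * c * (1 + c * S) * σ * p j) * he j

/-- the rotations are Killing -/
theorem kv_L (he : ∀ i, e i ^ 2 = 1) (k m : ι) :
    KV (gInv c e) x (fun y s => kL e y k m s) := by
  have hp : ∀ l s, HP l (fun y => kL e y k m s) x
      ((if m = s then 1 else 0) * e k * (if k = l then 1 else 0) -
        (if k = s then 1 else 0) * e m * (if m = l then 1 else 0)) := by
    intro l s
    have h := (HP.cmul ((if m = s then 1 else 0) * e k) (hp_coord (l := l) (x := x) k)).sub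
      (HP.cmul ((if k = s then 1 else 0) * e m) (hp_coord m))
    have e1 : (fun y => kL e y k m s) = fun y : ι → ℝ => (if m = s then 1 else 0) * e k * y k -
        (if k = s then 1 else 0) * e m * y m := by
      funext y
      unfold kL
      split_ifs <;> ring
    rw [e1]
    exact h
  refine ⟨fun s => (hp s s).1, fun p => ?_⟩
  set σ := ∑ s, x s * p s with hσ
  set T := ∑ i, e i * p i ^ 2 with hT
  have e1 : ∀ l, ∑ s, pd l (fun y => kL e y k m s) x * p s =
      (if k = l then e k * p m else 0) - (if m = l then e m * p k else 0) := by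
    intro l
    have e2 : ∀ s, pd l (fun y => kL e y k m s) x * p s =
        (if k = l then e k else 0) * (if m = s then p s else 0) -
        (if m = l then e m else 0) * (if k = s then p s else 0) := by
      intro s
      rw [(hp l s).2]
      split_ifs <;> ring
    simp only [e2]
    rw [Finset.sum_sub_distrib, ← Finset.mul_sum, ← Finset.mul_sum,
      Finset.sum_ite_eq, Finset.sum_ite_eq]
    simp only [Finset.mem_univ, if_true]
    split_ifs <;> ring
  have e3 : ∀ l, (∑ i, gInv c e x l i * p i) * (∑ s, pd l (fun y => kL e y k m s) x * p s) =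
      (if k = l then rho c e x * (e l * p l + c * x l * σ) * (e k * p m) else 0) -
        (if m = l then rho c e x * (e l * p l + c * x l * σ) * (e m * p k) else 0) := by
    intro l
    rw [e1, gInv_contr, ← hσ]
    split_ifs <;> ring
  have e4 : ∀ l, kL e x k m l * (∑ s, ∑ t, pd l (fun y => gInv c e y s t) x * p s * p t) =
      (if m = l then e k * x k *
        (2 * c * e l * x l * (T + c * σ ^ 2) + 2 * c * rho c e x * σ * p l) else 0) -
      (if k = l then e m * x m *
        (2 * c * e l * x l * (T + c * σ ^ 2) + 2 * c * rho c e x * σ * p l) else 0) := by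
    intro l
    rw [dH, ← hσ, ← hT]
    unfold kL
    split_ifs <;> ring
  simp only [e3, e4, Finset.sum_sub_distrib]
  rw [Finset.sum_ite_eq, Finset.sum_ite_eq, Finset.sum_ite_eq, Finset.sum_ite_eq]
  simp only [Finset.mem_univ, if_true]
  linear_combination (2 * rho c e x * p k * p m) * he k - (2 * rho c e x * p k * p m) * he m

/-- the metric and its inverse -/
theorem met_inv (he : ∀ i, e i ^ 2 = 1) (hx : 0 < rho c e x) (i t : ι) :
    ∑ j, gMet c e x i j * gInv c e x j t = if i = t then 1 else 0 := by
  have hr := rho_eq x c e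
  set S := ∑ i, e i * x i ^ 2 with hS
  have e1 : ∀ j, gMet c e x i j * gInv c e x j t =
      (rho c e x)⁻¹ * ((if i = j then rho c e x * e i * ((if j = t then e j else 0) + c * x j * x t)
        else 0) - c * e i * x i * (if j = t then e j ^ 2 * x j else 0) -
          c ^ 2 * e i * x i * x t * (e j * x j ^ 2)) := by
    intro j
    unfold gMet gInv
    have := hx.ne'
    rcases eq_or_ne j t with rfl | hjt
    · simp only [if_true]
      field_simp
      split_ifs <;> ring
    · simp only [if_neg hjt]
      field_simp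
      split_ifs <;> ring
  simp only [e1]
  rw [← Finset.mul_sum, Finset.sum_sub_distrib, Finset.sum_sub_distrib, Finset.sum_ite_eq,
    ← Finset.mul_sum, ← Finset.mul_sum, Finset.sum_ite_eq', ← hS]
  simp only [Finset.mem_univ, if_true]
  rw [he t]
  have := hx.ne'
  field_simp
  by_cases h : i = t
  · subst h
    simp only [if_true]
    linear_combination (rho c e x) * he i + c * e i * x i ^ 2 * hr
  · simp only [if_neg h]
    linear_combination c * e i * x i * x t * hr

end metric

/-- **KIL** -/
theorem t : S_KIL := by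
  intro ι _ _ c e d b he
  have hrc : Continuous (rho c e) := by
    unfold rho
    fun_prop
  have hU : IsOpen {x : ι → ℝ | 0 < rho c e x} := isOpen_lt continuous_const hrc
  -- the contravariant tensor
  have hK : ∀ x : ι → ℝ, 0 < rho c e x → ∀ s t,
      ∑ j, kK c e d b x s j * gInv c e x j t = kQ c e (fun j => d j * e j) b x s t := by
    intro x hx s t
    unfold kK
    have e1 : ∀ j, (∑ i, kQ c e (fun j => d j * e j) b x s i * gMet c e x i j) *
        gInv c e x j t = ∑ i, kQ c e (fun j => d j * e j) b x s i *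
          (gMet c e x i j * gInv c e x j t) := by
      intro j
      rw [Finset.sum_mul]
      exact Finset.sum_congr rfl fun i _ => by ring
    simp only [e1]
    rw [Finset.sum_comm]
    simp only [← Finset.mul_sum, met_inv x c e he hx]
    simp
  have hQs : ∀ x : ι → ℝ, ∀ s t, kQ c e (fun j => d j * e j) b x s t =
      kQ c e (fun j => d j * e j) b x t s := by
    intro x s t
    unfold kQ
    congr 1
    · exact Finset.sum_congr rfl fun j _ => by ring
    · refine Finset.sum_congr rfl fun j _ => Finset.sum_congr rfl fun k _ =>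
        Finset.sum_congr rfl fun l _ => by ring
  refine ⟨fun s j => ?_, fun x hx s t => ?_, fun x hx p => ?_⟩
  · intro x hx
    have hx' : rho c e x ≠ 0 := ne_of_gt hx
    have hcoord : ∀ i, AnalyticAt ℝ (fun y : ι → ℝ => y i) x := fun i =>
      (ContinuousLinearMap.proj i : (ι → ℝ) →L[ℝ] ℝ).analyticAt x
    have hrho : AnalyticAt ℝ (rho c e) x := by
      unfold rho
      refine analyticAt_const.add (analyticAt_const.mul ?_)
      refine Finset.analyticAt_fun_sum _ fun i _ => analyticAt_const.mul ((hcoord i).pow 2)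
    have hP : ∀ j s, AnalyticAt ℝ (fun y => kP c e y j s) x := by
      intro j s
      unfold kP
      exact analyticAt_const.add ((analyticAt_const.mul (hcoord j)).mul (hcoord s))
    have hL : ∀ k l s, AnalyticAt ℝ (fun y => kL e y k l s) x := by
      intro k l s
      have e1 : (fun y => kL e y k l s) = fun y : ι → ℝ => (if l = s then 1 else 0) * e k * y k -
          (if k = s then 1 else 0) * e l * y l := by
        funext y
        unfold kL
        split_ifs <;> ring
      rw [e1]
      exact (analyticAt_const.mul (hcoord k)).sub (analyticAt_const.mul (hcoord l))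
    have hQ : ∀ s t, AnalyticAt ℝ (fun y => kQ c e (fun j => d j * e j) b y s t) x := by
      intro s t
      unfold kQ
      refine AnalyticAt.add ?_ ?_
      · exact Finset.analyticAt_fun_sum _ fun j _ => (analyticAt_const.mul (hP j s)).mul (hP j t)
      · refine Finset.analyticAt_fun_sum _ fun j _ => Finset.analyticAt_fun_sum _ fun k _ =>
          Finset.analyticAt_fun_sum _ fun l _ => analyticAt_const.mul
            (((hP j s).mul (hL k l t)).add ((hP j t).mul (hL k l s)))
    have hG : ∀ i j, AnalyticAt ℝ (fun y => gMet c e y i j) x := by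
      intro i j
      unfold gMet
      refine AnalyticAt.div ?_ (hrho.pow 2) (pow_ne_zero 2 hx')
      have e1 : (fun y : ι → ℝ => (if i = j then rho c e y * e i else 0) -
          c * e i * e j * y i * y j) = fun y : ι → ℝ => (if i = j then 1 else 0) *
            (rho c e y * e i) - c * e i * e j * y i * y j := by
        funext y
        split_ifs <;> ring
      rw [e1]
      exact (analyticAt_const.mul (hrho.mul analyticAt_const)).sub
        ((analyticAt_const.mul (hcoord i)).mul (hcoord j))
    unfold kK
    exact Finset.analyticAt_fun_sum _ fun i _ => (hQ s i).mul (hG i j)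
  · rw [hK x hx, hK x hx, hQs]
  · have hZ : Z (gInv c e) x (kQ c e (fun j => d j * e j) b) := by
      have h1 : Z (gInv c e) x (fun y s t => ∑ j, (d j * e j / 2) *
          (kP c e y j s * kP c e y j t + kP c e y j t * kP c e y j s)) :=
        Z.sum _ fun j _ => (Z.prod (kv_P x c e he j) (kv_P x c e he j)).cmul _
      have h2 : Z (gInv c e) x (fun y s t => ∑ j, ∑ k, ∑ l, b j k l *
          (kP c e y j s * kL e y k l t + kP c e y j t * kL e y k l s)) :=
        Z.sum _ fun j _ => Z.sum _ fun k _ => Z.sum _ fun l _ =>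
          (Z.prod (kv_P x c e he j) (kv_L x c e he k l)).cmul _
      have h3 := h1.add h2
      have e1 : (fun y s t => (∑ j, (d j * e j / 2) *
          (kP c e y j s * kP c e y j t + kP c e y j t * kP c e y j s)) +
          ∑ j, ∑ k, ∑ l, b j k l *
          (kP c e y j s * kL e y k l t + kP c e y j t * kL e y k l s)) =
          kQ c e (fun j => d j * e j) b := by
        funext y s t
        unfold kQ
        congr 1
        exact Finset.sum_congr rfl fun j _ => by ring
      rw [← e1]
      exact h3
    have h := hZ.2 p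
    unfold Br at h
    rw [← h]
    refine Finset.sum_congr rfl fun l _ => ?_
    have e1 : ∀ s t, pd l (fun y => ∑ j, kK c e d b y s j * gInv c e y j t) x =
        pd l (fun y => kQ c e (fun j => d j * e j) b y s t) x := by
      intro s t
      refine hp_congr ?_
      filter_upwards [hU.mem_nhds hx] with y hy
      exact hK y hy s t
    simp only [e1, hK x hx]

end Pool.Agent.N558.KT
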